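import Pool.Agent.Y453.HB.Stm

/-!
# Project HB: products of Hamiltonian diffeomorphisms, and conjugates by dilations
-/

set_option autoImplicit false

open Set Filter Topology Function

namespace Pool.Agent.Y907.HB

open Pool.Agent.Y453.HB

theorem XH_lin {n : ℕ} {h h' : E n → ℝ} {p : E n} (c c' : ℝ) (hh : DifferentiableAt ℝ h p)
    (hh' : DifferentiableAt ℝ h' p) :
    XH (fun x => c * h x + c' * h' x) p = c • XH h p + c' • XH h' p := by
  have h1 : fderiv ℝ (fun x => c * h x + c' * h' x) p = c • fderiv ℝ h p + c' • fderiv ℝ h' p :=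
    ((hh.hasFDerivAt.const_mul c).add (hh'.hasFDerivAt.const_mul c')).fderiv
  unfold XH
  rw [h1]
  refine Prod.ext ?_ ?_
  · funext i
    simp
  · funext i
    simp
    ring

/-- the first time change -/
noncomputable def al (t : ℝ) : ℝ := Real.smoothTransition (3 * t)

/-- the second time change -/
noncomputable def be (t : ℝ) : ℝ := Real.smoothTransition (3 * t - 2)

theorem al_smooth : ContDiff ℝ ((⊤ : ℕ∞) : WithTop ℕ∞) al :=
  Real.smoothTransition.contDiff.comp (contDiff_const.mul contDiff_id)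

theorem be_smooth : ContDiff ℝ ((⊤ : ℕ∞) : WithTop ℕ∞) be :=
  Real.smoothTransition.contDiff.comp ((contDiff_const.mul contDiff_id).sub contDiff_const)

theorem al_one {t : ℝ} (h : 1 / 3 ≤ t) : al t = 1 :=
  Real.smoothTransition.one_of_one_le (by linarith)

theorem be_zero {t : ℝ} (h : t ≤ 2 / 3) : be t = 0 :=
  Real.smoothTransition.zero_of_nonpos (by linarith)

theorem mul : S_MUL := by
  rintro n u v ⟨H, hH, ⟨K, hK, hK1, hK2⟩, ψ, h0, hd, h1⟩
    ⟨H', hH', ⟨K', hK', hK1', hK2'⟩, ψ', h0', hd', h1'⟩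
  have hal := (contDiff_infty_iff_deriv.1 al_smooth)
  have hbe := (contDiff_infty_iff_deriv.1 be_smooth)
  refine ⟨fun t x => deriv al t * H' (al t) x + deriv be t * H (be t) x, ?_,
    ⟨K ∪ K', hK.union hK', union_subset hK1 hK1', ?_⟩, fun t x => ψ (be t) (ψ' (al t) x),
    ?_, ?_, ?_⟩
  · have e1 : ContDiff ℝ ((⊤ : ℕ∞) : WithTop ℕ∞) (fun p : ℝ × E n => H' (al p.1) p.2) :=
      hH'.comp ((al_smooth.comp contDiff_fst).prodMk contDiff_snd)
    have e2 : ContDiff ℝ ((⊤ : ℕ∞) : WithTop ℕ∞) (fun p : ℝ × E n => H (be p.1) p.2) :=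
      hH.comp ((be_smooth.comp contDiff_fst).prodMk contDiff_snd)
    exact ((hal.2.comp contDiff_fst).mul e1).add ((hbe.2.comp contDiff_fst).mul e2)
  · intro t x hx
    rw [mem_union, not_or] at hx
    show deriv al t * H' (al t) x + deriv be t * H (be t) x = 0
    rw [hK2 _ x hx.1, hK2' _ x hx.2, mul_zero, mul_zero, add_zero]
  · intro x
    have e1 : al 0 = 0 := Real.smoothTransition.zero_of_nonpos (by norm_num)
    show ψ (be 0) (ψ' (al 0) x) = x
    rw [be_zero (by norm_num), e1, h0', h0]
  · intro t x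
    have d1 : ∀ s, DifferentiableAt ℝ (H s) (ψ (be t) (ψ' (al t) x)) := by
      intro s
      have : ContDiff ℝ ((⊤ : ℕ∞) : WithTop ℕ∞) (fun y : E n => H s y) :=
        hH.comp (contDiff_const.prodMk contDiff_id)
      exact (this.differentiable (by simp)).differentiableAt
    have d2 : ∀ s, DifferentiableAt ℝ (H' s) (ψ (be t) (ψ' (al t) x)) := by
      intro s
      have : ContDiff ℝ ((⊤ : ℕ∞) : WithTop ℕ∞) (fun y : E n => H' s y) :=
        hH'.comp (contDiff_const.prodMk contDiff_id)
      exact (this.differentiable (by simp)).differentiableAt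
    rw [XH_lin (deriv al t) (deriv be t) (d2 _) (d1 _)]
    rcases lt_or_ge t (2 / 3) with ht | ht
    · have hev : ∀ᶠ s in 𝓝 t, be s = 0 := by
        filter_upwards [Iio_mem_nhds ht] with s hs
        exact be_zero (le_of_lt hs)
      have hb0 : be t = 0 := be_zero ht.le
      have hdb : deriv be t = 0 := by
        have : be =ᶠ[𝓝 t] fun _ => 0 := hev
        rw [this.deriv_eq]
        simp
      rw [hdb, zero_smul, add_zero, hb0, h0]
      have h2 := (hd' (al t) x).scomp t (hal.1 t).hasDerivAt
      refine h2.congr_of_eventuallyEq ?_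
      filter_upwards [hev] with s hs
      rw [hs, h0]
      rfl
    · have hev : ∀ᶠ s in 𝓝 t, al s = 1 := by
        filter_upwards [Ioi_mem_nhds (show (1 / 3 : ℝ) < t by linarith)] with s hs
        exact al_one (le_of_lt hs)
      have ha1 : al t = 1 := al_one (by linarith)
      have hda : deriv al t = 0 := by
        have : al =ᶠ[𝓝 t] fun _ => 1 := hev
        rw [this.deriv_eq]
        simp
      rw [hda, zero_smul, zero_add, ha1]
      have h2 := (hd (be t) (ψ' 1 x)).scomp t (hbe.1 t).hasDerivAt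
      refine h2.congr_of_eventuallyEq ?_
      filter_upwards [hev] with s hs
      rw [hs]
      rfl
  · intro x
    have e1 : be 1 = 1 := Real.smoothTransition.one_of_one_le (by norm_num)
    show u (v x) = ψ (be 1) (ψ' (al 1) x)
    rw [e1, al_one (by norm_num), ← h1', ← h1]

end Pool.Agent.Y907.HB
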